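import Pool.Agent.H8.AV3.Stmts4

/-!
# AV3B, module LVB: the local averages of the weights
-/

set_option autoImplicit false

namespace Pool.Agent.H28.AV3B

open Polynomial Matrix Pool.AVR Pool.AV3

section Maps

theorem Jc_map {R S : Type} [CommRing R] [CommRing S] (φ : R →+* S) (τ : R) (c : Fin 10 → R) :
    Jc (φ τ) (fun i => φ (c i)) =
      (φ (Jc τ c).1, φ (Jc τ c).2.1, φ (Jc τ c).2.2) := by
  simp only [Jc, jb4, jb6, map_add, map_sub, map_mul, map_pow, map_neg, map_ofNat]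

theorem dsc_map {R S : Type} [CommRing R] [CommRing S] (φ : R →+* S) (f : R × R × R) :
    dsc (φ f.1, φ f.2.1, φ f.2.2) = φ (dsc f) := by
  simp only [dsc, disc, map_add, map_sub, map_mul, map_pow, map_ofNat]

theorem sh_map {R S : Type} [CommRing R] [CommRing S] (φ : R →+* S) (η : R) (f : R × R × R) :
    (φ (sh η f).1, φ (sh η f).2.1, φ (sh η f).2.2) = sh (φ η) (φ f.1, φ f.2.1, φ f.2.2) := by
  simp only [sh, map_add, map_mul, map_pow, map_ofNat]

end Maps

section Core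

variable {R k : Type} [CommRing R] [Field k]

open Classical in
theorem fsum_fin {α M : Type} [Fintype α] [AddCommMonoid M] (p : α → Prop) (w : α → M) :
    ∑ᶠ x ∈ {x | p x}, w x = ∑ x ∈ Finset.univ.filter p, w x := by
  have h : {x | p x} = ((Finset.univ.filter p : Finset α) : Set α) := by
    ext x
    simp
  rw [h, finsum_mem_coe_finset]

open Classical in
theorem ncard_fin {α : Type} [Fintype α] (p : α → Prop) :
    {x | p x}.ncard = (Finset.univ.filter p).card := by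
  have h : {x | p x} = ((Finset.univ.filter p : Finset α) : Set α) := by
    ext x
    simp
  rw [h, Set.ncard_coe_finset]

open Classical in
/-- The local weight. -/
noncomputable def wl (φ : R →+* k) (τ : R) (c : Fin 10 → R) : ℝ :=
  (gdk (fun i => φ (c i)) : ℝ) / (if dsc (Jc τ c) = 0 then (Nat.card k : ℝ) - 1 else
    ((Nat.card k : ℝ) - 1) * ((Nat.card k : ℝ) * nET (Jc τ c) / Nat.card R + 1))

open Classical in
theorem mas (hMAS : MAS3Stmt) [Fintype R] [Finite k] (φ : R →+* k) (τ : R) (h : Res φ τ)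
    (A : Set (R × R × R)) (hA : ShInv A) :
    (Nat.card k : ℝ) ^ 5 * ∑ c ∈ Finset.univ.filter (fun c : Fin 10 → R => Jc τ c ∈ A),
        (gdk (fun i => φ (c i)) : ℝ) =
      ((Nat.card k : ℝ) - 1) * ((Nat.card k : ℝ) ^ 2 - 1) * ((Nat.card k : ℝ) ^ 3 - 1) *
        (Nat.card R : ℝ) ^ 6 * ∑ f ∈ Finset.univ.filter (fun f : R × R × R => f ∈ A),
          ((Nat.card k : ℝ) * nET f + Nat.card R) := by
  have h1 := hMAS R k φ τ h A hA
  have hk : 1 ≤ Nat.card k := Nat.card_pos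
  have hA' : A = {f | f ∈ A} := rfl
  rw [fsum_fin (fun c : Fin 10 → R => Jc τ c ∈ A)] at h1
  have h2 : ∑ᶠ f ∈ A, (Nat.card k * nET f + Nat.card R) =
      ∑ f ∈ Finset.univ.filter (fun f : R × R × R => f ∈ A), (Nat.card k * nET f + Nat.card R) :=
    fsum_fin (fun f : R × R × R => f ∈ A) _
  rw [h2] at h1
  have h3 := congrArg (Nat.cast : ℕ → ℝ) h1
  rw [Nat.cast_mul, Nat.cast_mul, Nat.cast_mul, Nat.cast_mul, Nat.cast_mul,
    Nat.cast_sub hk, Nat.cast_sub (Nat.one_le_pow _ _ hk), Nat.cast_sub (Nat.one_le_pow _ _ hk)]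
    at h3
  push_cast at h3
  exact h3

open Classical in
theorem core (hMAS : MAS3Stmt) (hNSH : NSHStmt) [Fintype R] [Finite k] (φ : R →+* k) (τ : R)
    (h : Res φ τ) (B : Set (R × R × R)) (hB : ShInv B) :
    ∑ᶠ c ∈ {c : Fin 10 → R | Jc τ c ∈ B}, wl φ τ c ≤
      (1 - 1 / (Nat.card k : ℝ) ^ 2) * (1 - 1 / (Nat.card k : ℝ) ^ 3) * (Nat.card R : ℝ) ^ 7 *
        B.ncard + (Nat.card R : ℝ) ^ 6 *
          ((∑ᶠ f ∈ {f : R × R × R | dsc f = 0}, (Nat.card k * nET f + Nat.card R) : ℕ) : ℝ) := by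
  have hk2 : 2 ≤ Nat.card k := by
    have := Finite.one_lt_card (α := k)
    omega
  have hk : (2 : ℝ) ≤ Nat.card k := by exact_mod_cast hk2
  set κ : ℝ := (Nat.card k : ℝ) with hκ
  have hκ0 : 0 < κ := by linarith
  have hκ1 : 0 < κ - 1 := by linarith
  have hr0 : 0 < Nat.card R := Nat.card_pos
  have hr : (0 : ℝ) < Nat.card R := by exact_mod_cast hr0
  set r : ℝ := (Nat.card R : ℝ) with hrdef
  have hB' : B.ncard = (Finset.univ.filter (fun f : R × R × R => f ∈ B)).card :=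
    ncard_fin (fun f => f ∈ B)
  -- the constants
  set ρ : ℝ := (1 - 1 / κ ^ 2) * (1 - 1 / κ ^ 3) with hρ
  have hρe : ρ = (κ ^ 2 - 1) * (κ ^ 3 - 1) / κ ^ 5 := by
    rw [hρ]
    field_simp
  have hk21 : 0 < κ ^ 2 - 1 := by nlinarith
  have hk31 : 0 < κ ^ 3 - 1 := by nlinarith [pow_pos hκ0 2]
  have hρ0 : 0 < ρ := by
    rw [hρe]
    positivity
  have hρ1 : ρ ≤ 1 := by
    rw [hρe, div_le_one (by positivity)]
    nlinarith [pow_pos hκ0 2, pow_pos hκ0 3]
  rw [fsum_fin (fun c : Fin 10 → R => Jc τ c ∈ B),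
    ← Finset.sum_filter_add_sum_filter_not _ (fun c : Fin 10 → R => dsc (Jc τ c) = 0),
    Finset.filter_filter, Finset.filter_filter, add_comm]
  apply add_le_add
  · -- nonzero discriminant
    set T : Finset (Fin 10 → R) :=
      Finset.univ.filter (fun c : Fin 10 → R => Jc τ c ∈ B ∧ ¬ dsc (Jc τ c) = 0) with hT
    set V : Finset (R × R × R) :=
      Finset.univ.filter (fun f : R × R × R => f ∈ B ∧ ¬ dsc f = 0) with hV
    set I : Finset ℕ := Finset.univ.image (fun f : R × R × R => nET f) with hI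
    have hI1 : ∀ f : R × R × R, nET f ∈ I := fun f =>
      Finset.mem_image_of_mem _ (Finset.mem_univ f)
    have h1 : ∑ c ∈ T, wl φ τ c =
        ∑ m ∈ I, ∑ c ∈ T with nET (Jc τ c) = m, wl φ τ c :=
      (Finset.sum_fiberwise_of_maps_to (fun c _ => hI1 (Jc τ c)) _).symm
    have h2 : V.card = ∑ m ∈ I, (V.filter (fun f => nET f = m)).card :=
      Finset.card_eq_sum_card_fiberwise (fun f _ => hI1 f)
    have h3 : ∀ m ∈ I, ∑ c ∈ T with nET (Jc τ c) = m, wl φ τ c =
        ρ * r ^ 7 * (V.filter (fun f => nET f = m)).card := by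
      intro m _
      have hA : ShInv {f : R × R × R | (f ∈ B ∧ ¬ dsc f = 0) ∧ nET f = m} := by
        rintro f ⟨⟨hf1, hf2⟩, hf3⟩ η
        refine ⟨⟨hB f hf1 η, ?_⟩, ?_⟩
        · rw [dsc_sh]
          exact hf2
        · rw [hNSH]
          exact hf3
      have h4 := mas hMAS φ τ h _ hA
      simp only [Set.mem_ofPred_eq] at h4
      have h5 : ∑ f ∈ Finset.univ.filter
          (fun f : R × R × R => (f ∈ B ∧ ¬ dsc f = 0) ∧ nET f = m),
            ((Nat.card k : ℝ) * nET f + Nat.card R) =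
          (V.filter (fun f => nET f = m)).card * (κ * m + r) := by
        rw [hV, Finset.filter_filter, ← nsmul_eq_mul, ← Finset.sum_const]
        refine Finset.sum_congr rfl (fun f hf => ?_)
        rw [Finset.mem_filter] at hf
        rw [hf.2.2]
      rw [h5] at h4
      have hden : 0 < κ * m + r := by positivity
      have h6 : ∑ c ∈ T with nET (Jc τ c) = m, wl φ τ c =
          (∑ c ∈ Finset.univ.filter
            (fun c : Fin 10 → R => (Jc τ c ∈ B ∧ ¬ dsc (Jc τ c) = 0) ∧ nET (Jc τ c) = m),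
              (gdk (fun i => φ (c i)) : ℝ)) / ((κ - 1) * (κ * m / r + 1)) := by
        rw [hT, Finset.filter_filter, Finset.sum_div]
        refine Finset.sum_congr rfl (fun c hc => ?_)
        rw [Finset.mem_filter] at hc
        unfold wl
        rw [if_neg hc.2.1.2, hc.2.2]
      rw [h6, div_eq_iff (by positivity)]
      have h7 : (∑ c ∈ Finset.univ.filter
            (fun c : Fin 10 → R => (Jc τ c ∈ B ∧ ¬ dsc (Jc τ c) = 0) ∧ nET (Jc τ c) = m),
              (gdk (fun i => φ (c i)) : ℝ)) = (κ - 1) * (κ ^ 2 - 1) * (κ ^ 3 - 1) * r ^ 6 *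
                ((V.filter (fun f => nET f = m)).card * (κ * m + r)) / κ ^ 5 := by
        rw [eq_div_iff (by positivity), mul_comm]
        exact h4
      rw [h7, hρe]
      field_simp
    rw [h1, Finset.sum_congr rfl h3, ← Finset.mul_sum, ← Nat.cast_sum, ← h2]
    apply mul_le_mul_of_nonneg_left _ (by positivity)
    rw [hB']
    have h8 : V ⊆ Finset.univ.filter (fun f : R × R × R => f ∈ B) := by
      intro f hf
      rw [hV, Finset.mem_filter] at hf
      rw [Finset.mem_filter]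
      exact ⟨hf.1, hf.2.1⟩
    exact_mod_cast Finset.card_le_card h8
  · -- zero discriminant
    have hA : ShInv {f : R × R × R | f ∈ B ∧ dsc f = 0} := by
      rintro f ⟨hf1, hf2⟩ η
      refine ⟨hB f hf1 η, ?_⟩
      rw [dsc_sh]
      exact hf2
    have h4 := mas hMAS φ τ h _ hA
    simp only [Set.mem_ofPred_eq] at h4
    have h6 : ∑ c ∈ Finset.univ.filter (fun c : Fin 10 → R => Jc τ c ∈ B ∧ dsc (Jc τ c) = 0),
        wl φ τ c = (∑ c ∈ Finset.univ.filter
            (fun c : Fin 10 → R => Jc τ c ∈ B ∧ dsc (Jc τ c) = 0),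
              (gdk (fun i => φ (c i)) : ℝ)) / (κ - 1) := by
      rw [Finset.sum_div]
      refine Finset.sum_congr rfl (fun c hc => ?_)
      rw [Finset.mem_filter] at hc
      unfold wl
      rw [if_pos hc.2.2]
    have h7 : (∑ c ∈ Finset.univ.filter
            (fun c : Fin 10 → R => Jc τ c ∈ B ∧ dsc (Jc τ c) = 0),
              (gdk (fun i => φ (c i)) : ℝ)) / (κ - 1) = ρ * r ^ 6 *
        ∑ f ∈ Finset.univ.filter (fun f : R × R × R => f ∈ B ∧ dsc f = 0), (κ * nET f + r) := by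
      rw [div_eq_iff hκ1.ne', hρe]
      have h8 : κ ^ 5 * (∑ c ∈ Finset.univ.filter
            (fun c : Fin 10 → R => Jc τ c ∈ B ∧ dsc (Jc τ c) = 0),
              (gdk (fun i => φ (c i)) : ℝ)) = κ ^ 5 * ((κ ^ 2 - 1) * (κ ^ 3 - 1) / κ ^ 5 * r ^ 6 *
        (∑ f ∈ Finset.univ.filter (fun f : R × R × R => f ∈ B ∧ dsc f = 0), (κ * nET f + r)) *
          (κ - 1)) := by
        rw [h4, ← hκ, ← hrdef]
        field_simp
      exact mul_left_cancel₀ (by positivity) h8
    rw [h6, h7]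
    have h9 : ((∑ᶠ f ∈ {f : R × R × R | dsc f = 0}, (Nat.card k * nET f + Nat.card R) : ℕ) : ℝ) =
        ∑ f ∈ Finset.univ.filter (fun f : R × R × R => dsc f = 0), (κ * nET f + r) := by
      rw [fsum_fin (fun f : R × R × R => dsc f = 0)]
      push_cast
      rfl
    rw [h9]
    have h10 : ∑ f ∈ Finset.univ.filter (fun f : R × R × R => f ∈ B ∧ dsc f = 0),
        (κ * nET f + r) ≤
        ∑ f ∈ Finset.univ.filter (fun f : R × R × R => dsc f = 0), (κ * nET f + r) := by
      apply Finset.sum_le_sum_of_subset_of_nonneg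
      · intro f hf
        rw [Finset.mem_filter] at hf ⊢
        exact ⟨hf.1, hf.2.2⟩
      · intro f _ _
        positivity
    have h11 : 0 ≤ ∑ f ∈ Finset.univ.filter (fun f : R × R × R => f ∈ B ∧ dsc f = 0),
        (κ * nET f + r) := Finset.sum_nonneg (fun f _ => by positivity)
    calc ρ * r ^ 6 * _ ≤ 1 * r ^ 6 *
        ∑ f ∈ Finset.univ.filter (fun f : R × R × R => f ∈ B ∧ dsc f = 0), (κ * nET f + r) := by
          apply mul_le_mul_of_nonneg_right _ h11
          exact mul_le_mul_of_nonneg_right hρ1 (by positivity)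
      _ ≤ _ := by
          rw [one_mul]
          exact mul_le_mul_of_nonneg_left h10 (by positivity)

theorem fib3 [Finite R] [Finite k] (φ : R →+* k)
    (hfib : ∀ y : k, {x : R | φ x = y}.ncard * Nat.card k = Nat.card R) (B : Set (k × k × k)) :
    {f : R × R × R | (φ f.1, φ f.2.1, φ f.2.2) ∈ B}.ncard * Nat.card k ^ 3 =
      B.ncard * Nat.card R ^ 3 := by
  classical
  have := Fintype.ofFinite R
  have := Fintype.ofFinite k
  set g : R × R × R → k × k × k := fun f => (φ f.1, φ f.2.1, φ f.2.2) with hg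
  have h1 : {f : R × R × R | (φ f.1, φ f.2.1, φ f.2.2) ∈ B}.ncard =
      ∑ y ∈ Finset.univ.filter (fun y : k × k × k => y ∈ B),
        ((Finset.univ.filter (fun f : R × R × R => g f ∈ B)).filter (fun f => g f = y)).card := by
    rw [ncard_fin (fun f : R × R × R => g f ∈ B)]
    apply Finset.card_eq_sum_card_fiberwise
    intro f hf
    simp only [Finset.coe_filter, Finset.mem_univ, true_and] at hf ⊢
    exact hf
  have h2 : ∀ y ∈ Finset.univ.filter (fun y : k × k × k => y ∈ B),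
      ((Finset.univ.filter (fun f : R × R × R => g f ∈ B)).filter (fun f => g f = y)).card *
        Nat.card k ^ 3 = Nat.card R ^ 3 := by
    intro y hy
    rw [Finset.mem_filter] at hy
    have h3 : ((Finset.univ.filter (fun f : R × R × R => g f ∈ B)).filter
        (fun f => g f = y)).card = ({x : R | φ x = y.1} ×ˢ ({x : R | φ x = y.2.1} ×ˢ
          {x : R | φ x = y.2.2})).ncard := by
      rw [← Set.ncard_coe_finset]
      congr 1
      ext f
      simp only [Finset.coe_filter, Finset.mem_filter, Finset.mem_univ, true_and]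
      constructor
      · rintro ⟨_, h⟩
        have h4 : (g f).1 = y.1 := by rw [h]
        have h5 : (g f).2.1 = y.2.1 := by rw [h]
        have h6 : (g f).2.2 = y.2.2 := by rw [h]
        exact ⟨h4, h5, h6⟩
      · rintro ⟨h4, h5, h6⟩
        have h7 : g f = y := Prod.ext h4 (Prod.ext h5 h6)
        exact ⟨by rw [h7]; exact hy.2, h7⟩
    rw [h3, Set.ncard_prod, Set.ncard_prod]
    have e1 := hfib y.1
    have e2 := hfib y.2.1
    have e3 := hfib y.2.2
    calc {x : R | φ x = y.1}.ncard * ({x : R | φ x = y.2.1}.ncard * {x : R | φ x = y.2.2}.ncard) *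
        Nat.card k ^ 3 = ({x : R | φ x = y.1}.ncard * Nat.card k) *
          ({x : R | φ x = y.2.1}.ncard * Nat.card k) *
          ({x : R | φ x = y.2.2}.ncard * Nat.card k) := by ring
      _ = Nat.card R ^ 3 := by
        rw [e1, e2, e3]
        ring
  rw [h1, Finset.sum_mul, Finset.sum_congr rfl h2, Finset.sum_const, smul_eq_mul,
    ← ncard_fin (fun y : k × k × k => y ∈ B)]
  rfl

end Core

section Quot

variable {F : Type} [Field F]

/-- The reduction map. -/
noncomputable def ph (P : F[X]) (N : ℕ) (hN : 1 ≤ N) : AdjoinRoot (P ^ N) →+* AdjoinRoot P :=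
  Ideal.Quotient.factor (Ideal.span_singleton_le_span_singleton.2 (dvd_pow_self P (by omega)))

theorem ph_mk (P : F[X]) (N : ℕ) (hN : 1 ≤ N) (p : F[X]) :
    ph P N hN (AdjoinRoot.mk (P ^ N) p) = AdjoinRoot.mk P p := rfl

theorem mk_lft {M : F[X]} (x : AdjoinRoot M) : AdjoinRoot.mk M (AVS.lft x) = x :=
  Function.surjInv_eq _ x

theorem res_ph (h2 : (2 : F) ≠ 0) (P : F[X]) [hPi : Fact (Irreducible P)] (N : ℕ)
    (hN : 1 ≤ N) [Finite (AdjoinRoot (P ^ N))] :
    Res (k := AdjoinRoot P) (ph P N hN) (AdjoinRoot.mk (P ^ N) (hf F)) := by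
  refine ⟨inferInstance, ?_, ?_, ?_⟩
  · intro y
    obtain ⟨p, rfl⟩ := AdjoinRoot.mk_surjective y
    exact ⟨AdjoinRoot.mk (P ^ N) p, rfl⟩
  · intro x
    obtain ⟨p, rfl⟩ := AdjoinRoot.mk_surjective x
    by_cases hd : P ∣ p
    · right
      exact AdjoinRoot.mk_eq_zero.2 hd
    · left
      have h1 : IsCoprime (P ^ N) p := ((hPi.out.coprime_iff_not_dvd).2 hd).pow_left
      obtain ⟨a, b, hab⟩ := h1
      have h3 : AdjoinRoot.mk (P ^ N) b * AdjoinRoot.mk (P ^ N) p = 1 := by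
        rw [← map_mul, ← map_one (AdjoinRoot.mk (P ^ N)), ← hab, map_add, map_mul _ a,
          AdjoinRoot.mk_self, mul_zero, zero_add]
      exact IsUnit.of_mul_eq_one_right _ h3
  · have h3 : (2 : F[X]) * hf F = 1 := by
      unfold hf
      rw [← C_ofNat, ← C_mul, mul_inv_cancel₀ h2, C_1]
    rw [← map_ofNat (AdjoinRoot.mk (P ^ N)), ← map_mul, h3, map_one]

theorem Jc_lft (P : F[X]) (N : ℕ) (c : Fin 10 → AdjoinRoot (P ^ N)) :
    Jc (AdjoinRoot.mk (P ^ N) (hf F)) c = md3 (P ^ N) (Jc (hf F) fun i => AVS.lft (c i)) := by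
  have h := Jc_map (AdjoinRoot.mk (P ^ N)) (hf F) (fun i => AVS.lft (c i))
  have h1 : (fun i => AdjoinRoot.mk (P ^ N) (AVS.lft (c i))) = c := funext (fun i => mk_lft (c i))
  rw [h1] at h
  exact h

theorem md_lft (P : F[X]) (N : ℕ) (hN : 1 ≤ N) (c : Fin 10 → AdjoinRoot (P ^ N)) :
    md P (fun i => AVS.lft (c i)) = fun i => ph P N hN (c i) := by
  funext i
  show AdjoinRoot.mk P (AVS.lft (c i)) = _
  rw [← ph_mk P N hN, mk_lft]

theorem wb_eq (P : F[X]) [Fact (Irreducible P)] (N : ℕ) (hN : 1 ≤ N)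
    (c : Fin 10 → AdjoinRoot (P ^ N)) :
    wb P N (fun i => AVS.lft (c i)) =
      wl (k := AdjoinRoot P) (ph P N hN) (AdjoinRoot.mk (P ^ N) (hf F)) c := by
  have e1 := md_lft P N hN c
  have e2 := Jc_lft P N c
  have e3 : P ^ N ∣ dsc (Jc (hf F) fun i => AVS.lft (c i)) ↔
      dsc (Jc (AdjoinRoot.mk (P ^ N) (hf F)) c) = 0 := by
    rw [e2, ← AdjoinRoot.mk_eq_zero, ← dsc_map (AdjoinRoot.mk (P ^ N))]
    rfl
  unfold wb wl
  rw [e1]
  congr 1
  unfold Bx
  by_cases h : P ^ N ∣ dsc (Jc (hf F) fun i => AVS.lft (c i))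
  · rw [if_pos h, if_pos (e3.1 h)]
  · rw [if_neg h, if_neg (fun h4 => h (e3.2 h4))]
    unfold Bw
    rw [e2]

end Quot

theorem lvb_thm (hMAS : MAS3Stmt) (hEXC : EXC3Stmt) (hNDN : NDNStmt) (hNSI : NSIStmt)
    (hNSH : NSHStmt) (hLVA : LVAStmt) (hREG : REGStmt) : LVBStmt := by
  intro F _ _ h2 P hP hPi ε hε
  have hFact := Fact.mk hPi
  obtain ⟨N₀, hN₀⟩ := hEXC F h2 P hP hPi ε hε
  refine ⟨max N₀ 1, fun N hN' => ?_⟩
  have hN0 : N₀ ≤ N := (le_max_left _ _).trans hN'
  have hN : 1 ≤ N := (le_max_right _ _).trans hN'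
  have hex := hN₀ N hN0
  have hcR := (hLVA F h2 P hP hPi).1 N
  have hck : Nat.card (AdjoinRoot P) = Nat.card F ^ P.natDegree := by
    have h3 := (hLVA F h2 P hP hPi).1 1
    rwa [pow_one, one_mul] at h3
  have hq0 : 0 < Nat.card F := Nat.card_pos
  have hfR : Finite (AdjoinRoot (P ^ N)) := by
    apply Nat.finite_of_card_ne_zero
    rw [hcR]
    exact (pow_pos hq0 _).ne'
  have hfk : Finite (AdjoinRoot P) := by
    apply Nat.finite_of_card_ne_zero
    rw [hck]
    exact (pow_pos hq0 _).ne'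
  have := Fintype.ofFinite (AdjoinRoot (P ^ N))
  have hres := res_ph h2 P N hN
  have hq : (0 : ℝ) < Nat.card F := by exact_mod_cast hq0
  have hNSI' : ∀ (η : AdjoinRoot P) (f : AdjoinRoot P × AdjoinRoot P × AdjoinRoot P),
      Nice (sh η f) ↔ Nice f := hNSI (AdjoinRoot P)
  have hB2 : ShInv {f : AdjoinRoot (P ^ N) × AdjoinRoot (P ^ N) × AdjoinRoot (P ^ N) |
      (ph P N hN f.1, ph P N hN f.2.1, ph P N hN f.2.2) ∈
        {g : AdjoinRoot P × AdjoinRoot P × AdjoinRoot P | ¬ Nice g}} := by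
    intro f hf η
    show ¬ Nice _
    rw [sh_map, hNSI']
    exact hf
  have c1 := core hMAS hNSH (k := AdjoinRoot P) (ph P N hN) _ hres Set.univ
    (fun _ _ _ => Set.mem_univ _)
  have c2 := core hMAS hNSH (k := AdjoinRoot P) (ph P N hN) _ hres _ hB2
  have hcR' : (Nat.card (AdjoinRoot (P ^ N)) : ℝ) = (Nat.card F : ℝ) ^ (N * P.natDegree) := by
    rw [hcR]
    push_cast
    rfl
  have hck' : (Nat.card (AdjoinRoot P) : ℝ) = (Nat.card F : ℝ) ^ P.natDegree := by
    rw [hck]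
    push_cast
    rfl
  have hρ : (1 - 1 / (Nat.card (AdjoinRoot P) : ℝ) ^ 2) *
      (1 - 1 / (Nat.card (AdjoinRoot P) : ℝ) ^ 3) = rhoF F P.natDegree := by
    unfold rhoF
    rw [hck', ← pow_mul, ← pow_mul, mul_comm P.natDegree 2, mul_comm P.natDegree 3]
  have hρ0 : 0 ≤ rhoF F P.natDegree := by
    have h3 : ∀ j : ℕ, 0 ≤ 1 - 1 / (Nat.card F : ℝ) ^ j := by
      intro j
      have h5 : 1 / (Nat.card F : ℝ) ^ j ≤ 1 := by
        rw [div_le_one (by positivity)]
        exact one_le_pow₀ (by exact_mod_cast hq0)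
      linarith
    exact mul_nonneg (h3 _) (h3 _)
  have hexc : (Nat.card (AdjoinRoot (P ^ N)) : ℝ) ^ 6 *
      ((∑ᶠ f ∈ {f : AdjoinRoot (P ^ N) × AdjoinRoot (P ^ N) × AdjoinRoot (P ^ N) | dsc f = 0},
        (Nat.card (AdjoinRoot P) * nET f + Nat.card (AdjoinRoot (P ^ N))) : ℕ) : ℝ) ≤
      ε * (Nat.card F : ℝ) ^ (10 * (N * P.natDegree)) := by
    rw [hcR, hck]
    refine (mul_le_mul_of_nonneg_left hex (by positivity)).trans (le_of_eq ?_)
    push_cast
    rw [← pow_mul, show 10 * (N * P.natDegree) = N * P.natDegree * 6 + 4 * (N * P.natDegree) by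
      ring, pow_add]
    ring
  constructor
  · have e1 : ∑ᶠ c : Fin 10 → AdjoinRoot (P ^ N), wb P N (fun i => AVS.lft (c i)) =
        ∑ᶠ c ∈ {c : Fin 10 → AdjoinRoot (P ^ N) |
          Jc (AdjoinRoot.mk (P ^ N) (hf F)) c ∈ Set.univ},
          wl (k := AdjoinRoot P) (ph P N hN) (AdjoinRoot.mk (P ^ N) (hf F)) c := by
      have h4 : {c : Fin 10 → AdjoinRoot (P ^ N) |
          Jc (AdjoinRoot.mk (P ^ N) (hf F)) c ∈ Set.univ} = Set.univ := by
        ext c
        simp
      rw [h4, finsum_mem_univ]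
      exact finsum_congr (fun c => wb_eq P N hN c)
    rw [e1]
    refine c1.trans ?_
    rw [hρ, add_mul]
    apply add_le_add _ hexc
    rw [Set.ncard_univ, Nat.card_prod, Nat.card_prod]
    push_cast
    rw [hcR']
    apply le_of_eq
    rw [show 10 * (N * P.natDegree) = (N * P.natDegree) * 10 by ring, pow_mul _ _ 10]
    ring
  · have e1 : ∑ᶠ c ∈ {c : Fin 10 → AdjoinRoot (P ^ N) |
          ¬ Nice (md3 P (Jc (hf F) fun i => AVS.lft (c i)))}, wb P N (fun i => AVS.lft (c i)) =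
        ∑ᶠ c ∈ {c : Fin 10 → AdjoinRoot (P ^ N) |
          Jc (AdjoinRoot.mk (P ^ N) (hf F)) c ∈
            {f : AdjoinRoot (P ^ N) × AdjoinRoot (P ^ N) × AdjoinRoot (P ^ N) |
              (ph P N hN f.1, ph P N hN f.2.1, ph P N hN f.2.2) ∈
              {g : AdjoinRoot P × AdjoinRoot P × AdjoinRoot P | ¬ Nice g}}},
          wl (k := AdjoinRoot P) (ph P N hN) (AdjoinRoot.mk (P ^ N) (hf F)) c := by
      have h4 : {c : Fin 10 → AdjoinRoot (P ^ N) |
          Jc (AdjoinRoot.mk (P ^ N) (hf F)) c ∈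
            {f : AdjoinRoot (P ^ N) × AdjoinRoot (P ^ N) × AdjoinRoot (P ^ N) |
              (ph P N hN f.1, ph P N hN f.2.1, ph P N hN f.2.2) ∈
              {g : AdjoinRoot P × AdjoinRoot P × AdjoinRoot P | ¬ Nice g}}} =
          {c : Fin 10 → AdjoinRoot (P ^ N) |
          ¬ Nice (md3 P (Jc (hf F) fun i => AVS.lft (c i)))} := by
        ext c
        have h5 := Jc_lft P N c
        show ¬ Nice _ ↔ ¬ Nice _
        rw [h5]
        rfl
      rw [h4]
      exact finsum_mem_congr rfl (fun c _ => wb_eq P N hN c)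
    rw [e1]
    refine c2.trans ?_
    rw [hρ, add_mul]
    apply add_le_add _ hexc
    have hfib := fib3 (k := AdjoinRoot P) (ph P N hN)
      (hREG (AdjoinRoot (P ^ N)) (AdjoinRoot P) (ph P N hN) _ hres).2.2.2.1
      {g : AdjoinRoot P × AdjoinRoot P × AdjoinRoot P | ¬ Nice g}
    have hn : 4 * {g : AdjoinRoot P × AdjoinRoot P × AdjoinRoot P | ¬ Nice g}.ncard ≤
        3 * Nat.card (AdjoinRoot P) ^ 3 := by
      apply hNDN (AdjoinRoot P)
      intro h0
      apply h2
      have h6 : AdjoinRoot.mk P (C (2 : F)) = 0 := by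
        rw [C_ofNat, map_ofNat]
        exact h0
      rw [AdjoinRoot.mk_eq_zero] at h6
      by_contra h7
      have h8 : IsUnit (C (2 : F)) := isUnit_C.2 (isUnit_iff_ne_zero.2 h7)
      exact hPi.not_isUnit (isUnit_of_dvd_unit h6 h8)
    set b := {f : AdjoinRoot (P ^ N) × AdjoinRoot (P ^ N) × AdjoinRoot (P ^ N) |
      (ph P N hN f.1, ph P N hN f.2.1, ph P N hN f.2.2) ∈
        {g : AdjoinRoot P × AdjoinRoot P × AdjoinRoot P | ¬ Nice g}}.ncard with hb
    have hk0 : 0 < Nat.card (AdjoinRoot P) := Nat.card_pos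
    have hb4 : 4 * b ≤ 3 * Nat.card (AdjoinRoot (P ^ N)) ^ 3 := by
      have h9 : 4 * b * Nat.card (AdjoinRoot P) ^ 3 ≤
          3 * Nat.card (AdjoinRoot (P ^ N)) ^ 3 * Nat.card (AdjoinRoot P) ^ 3 := by
        calc 4 * b * Nat.card (AdjoinRoot P) ^ 3 = 4 * (b * Nat.card (AdjoinRoot P) ^ 3) := by ring
          _ = (4 * {g : AdjoinRoot P × AdjoinRoot P × AdjoinRoot P | ¬ Nice g}.ncard) *
              Nat.card (AdjoinRoot (P ^ N)) ^ 3 := by
              rw [hfib]
              ring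
          _ ≤ (3 * Nat.card (AdjoinRoot P) ^ 3) * Nat.card (AdjoinRoot (P ^ N)) ^ 3 :=
              Nat.mul_le_mul_right _ hn
          _ = _ := by ring
      exact Nat.le_of_mul_le_mul_right h9 (pow_pos hk0 3)
    have hb4' : (b : ℝ) ≤ 3 / 4 * (Nat.card (AdjoinRoot (P ^ N)) : ℝ) ^ 3 := by
      have h10 : (4 : ℝ) * b ≤ 3 * (Nat.card (AdjoinRoot (P ^ N)) : ℝ) ^ 3 := by
        exact_mod_cast hb4
      linarith
    have h11 : rhoF F P.natDegree * (Nat.card (AdjoinRoot (P ^ N)) : ℝ) ^ 7 * (b : ℝ) ≤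
        rhoF F P.natDegree * (Nat.card (AdjoinRoot (P ^ N)) : ℝ) ^ 7 *
          (3 / 4 * (Nat.card (AdjoinRoot (P ^ N)) : ℝ) ^ 3) :=
      mul_le_mul_of_nonneg_left hb4' (by positivity)
    refine h11.trans (le_of_eq ?_)
    rw [hcR', show 10 * (N * P.natDegree) = (N * P.natDegree) * 10 by ring, pow_mul _ _ 10]
    ring

end Pool.Agent.H28.AV3B
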