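import Pool.Agent.H8.AV3.Stmts4

/-!
# AV3B, module AVW: the averages of the weights over the forms of one type
-/

set_option autoImplicit false

namespace Pool.Agent.H28.AV3B

open Polynomial Matrix Pool.AVR Pool.AV3

section Pow

variable {F : Type} [Field F]

theorem eq_of_dvd (P Q : F[X]) (hP : P.Monic) (hPi : Irreducible P) (hQ : Q.Monic)
    (hQi : Irreducible Q) (h : P ∣ Q) : P = Q :=
  eq_of_monic_of_associated hP hQ (hPi.associated_of_dvd hQi h)

theorem pow_inj (N : ℕ) (hN : 1 ≤ N) (P Q : F[X]) (hP : P.Monic) (hPi : Irreducible P)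
    (hQ : Q.Monic) (hQi : Irreducible Q) (h : P ^ N = Q ^ N) : P = Q := by
  apply eq_of_dvd P Q hP hPi hQ hQi
  have h1 : P ∣ Q ^ N := by
    rw [← h]
    exact dvd_pow_self P (by omega)
  exact hPi.prime.dvd_of_dvd_pow h1

theorem cop (P Q : F[X]) (hP : P.Monic) (hPi : Irreducible P)
    (hQ : Q.Monic) (hQi : Irreducible Q) (h : P ≠ Q) : IsCoprime P Q := by
  rw [hPi.coprime_iff_not_dvd]
  intro h1
  exact h (eq_of_dvd P Q hP hPi hQ hQi h1)

end Pow

section Fsum

theorem fsum_if {α : Type} {s : Set α} (hs : s.Finite) (p : α → Prop) [DecidablePred p]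
    (w : α → ℝ) :
    ∑ᶠ x ∈ {x | x ∈ s ∧ p x}, w x = ∑ᶠ x ∈ s, (if p x then w x else 0) := by
  have h : {x | x ∈ s ∧ p x} = ((hs.toFinset.filter p : Finset α) : Set α) := by
    ext x
    simp
  rw [h, finsum_mem_coe_finset, finsum_mem_eq_finite_toFinset_sum _ hs, Finset.sum_filter]

theorem fsum_not {α : Type} (p : α → Prop) [DecidablePred p] (w : α → ℝ) :
    ∑ᶠ x, (if p x then 0 else w x) = ∑ᶠ x ∈ {x | ¬ p x}, w x := by
  classical
  rw [finsum_mem_def]
  refine finsum_congr (fun x => ?_)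
  by_cases h : p x
  · rw [if_pos h, Set.indicator_of_notMem]
    exact fun h1 => h1 h
  · rw [if_neg h, Set.indicator_of_mem]
    exact h

end Fsum

section Gen

variable {F : Type} [Field F] [Finite F]

open Classical in
/-- The local functions. -/
noncomputable def PhiU (u : F[X] → (Fin 10 → F[X]) → ℝ) (S : Finset F[X]) (N : ℕ) (M : F[X])
    (c : Fin 10 → AdjoinRoot M) : ℝ :=
  if h : ∃ P ∈ S, P ^ N = M then u (Classical.choose h) (fun i => AVS.lft (c i)) else 0

omit [Finite F] in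
theorem PhiU_eq (u : F[X] → (Fin 10 → F[X]) → ℝ) (S : Finset F[X]) (N : ℕ) (hN : 1 ≤ N)
    (hS : ∀ P ∈ S, P.Monic ∧ Irreducible P) (P : F[X]) (hP : P ∈ S)
    (c : Fin 10 → AdjoinRoot (P ^ N)) :
    PhiU u S N (P ^ N) c = u P (fun i => AVS.lft (c i)) := by
  have h : ∃ Q ∈ S, Q ^ N = P ^ N := ⟨P, hP, rfl⟩
  have h1 := Classical.choose_spec h
  have h2 : Classical.choose h = P :=
    pow_inj N hN _ _ (hS _ h1.1).1 (hS _ h1.1).2 (hS P hP).1 (hS P hP).2 h1.2
  unfold PhiU
  rw [dif_pos h, h2]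

theorem gen (hEQP : EQP3Stmt) (u : F[X] → (Fin 10 → F[X]) → ℝ) (v : (Fin 10 → F[X]) → ℝ)
    (S : Finset F[X]) (N : ℕ) (hN : 1 ≤ N) (hS : ∀ P ∈ S, P.Monic ∧ Irreducible P)
    (hu : ∀ P ∈ S, ∀ c : Fin 10 → F[X], u P (fun i => AVS.lft (md (P ^ N) c i)) = u P c)
    (hv : ∀ c : Fin 10 → F[X], v (fun i => AVS.lft (md (X ^ N) c i)) = v c)
    (n α β : ℕ) (hn : N * (∑ P ∈ S, P.natDegree + 1) + 2 * α + β ≤ n + 1) :
    (Vd n (dv α β) : Set (Fin 10 → F[X])).Finite ∧
    ∑ᶠ c ∈ (Vd n (dv α β) : Set (Fin 10 → F[X])),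
        (∏ P ∈ S, u P c) * v (cinf n (dv α β) c) =
      (Nat.card F : ℝ) ^ (10 * n + 10) *
        (∏ P ∈ S, (∑ᶠ c : Fin 10 → AdjoinRoot (P ^ N), u P (fun i => AVS.lft (c i))) /
          (Nat.card F : ℝ) ^ (10 * (N * P.natDegree))) *
        ((∑ᶠ c : Fin 10 → AdjoinRoot ((X : F[X]) ^ N), v (fun i => AVS.lft (c i))) /
          (Nat.card F : ℝ) ^ (10 * N)) := by
  classical
  have hinj : Set.InjOn (fun P : F[X] => P ^ N) (S : Set F[X]) := by
    intro P hP Q hQ h
    exact pow_inj N hN P Q (hS P hP).1 (hS P hP).2 (hS Q hQ).1 (hS Q hQ).2 h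
  have hdeg : ∑ M ∈ S.image (fun P => P ^ N), M.natDegree = N * ∑ P ∈ S, P.natDegree := by
    rw [Finset.sum_image hinj, Finset.mul_sum]
    exact Finset.sum_congr rfl (fun P _ => natDegree_pow P N)
  obtain ⟨hfin, h⟩ := hEQP F n α β N (S.image (fun P => P ^ N)) hN
    (by
      intro M hM
      obtain ⟨P, hP, rfl⟩ := Finset.mem_image.1 hM
      exact (hS P hP).1.pow N)
    (by
      intro M hM M' hM' hne
      obtain ⟨P, hP, rfl⟩ := Finset.mem_image.1 hM
      obtain ⟨Q, hQ, rfl⟩ := Finset.mem_image.1 hM'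
      apply IsCoprime.pow
      apply cop P Q (hS P hP).1 (hS P hP).2 (hS Q hQ).1 (hS Q hQ).2
      rintro rfl
      exact hne rfl)
    (by
      rw [hdeg]
      rw [mul_add, mul_one] at hn
      omega)
    (PhiU u S N) (fun c => v (fun i => AVS.lft (c i)))
  refine ⟨hfin, ?_⟩
  rw [Finset.prod_image hinj] at h
  have e1 : ∀ c : Fin 10 → F[X],
      (∏ M ∈ S.image (fun P => P ^ N), PhiU u S N M (md M c)) *
        v (fun i => AVS.lft (md (X ^ N) (cinf n (dv α β) c) i)) =
          (∏ P ∈ S, u P c) * v (cinf n (dv α β) c) := by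
    intro c
    rw [Finset.prod_image hinj, hv (cinf n (dv α β) c)]
    congr 1
    refine Finset.prod_congr rfl (fun P hP => ?_)
    rw [PhiU_eq u S N hN hS P hP, hu P hP c]
  simp only [e1] at h
  rw [h]
  congr 1
  congr 1
  refine Finset.prod_congr rfl (fun P hP => ?_)
  rw [natDegree_pow]
  have e2 : ∀ c : Fin 10 → AdjoinRoot (P ^ N),
      PhiU u S N (P ^ N) c = u P (fun i => AVS.lft (c i)) := PhiU_eq u S N hN hS P hP
  simp only [e2]

end Gen

section Cont

theorem exists_delta {β : Type} (S : Finset β) (a : β → ℝ) (b ε : ℝ) (hε : 0 < ε) :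
    ∃ δ₀ : ℝ, 0 < δ₀ ∧ ∀ δ : ℝ, 0 < δ → δ ≤ δ₀ →
      (∏ P ∈ S, (a P + δ)) * (b + δ) ≤ (∏ P ∈ S, a P) * b + ε := by
  have hc : Continuous (fun δ : ℝ => (∏ P ∈ S, (a P + δ)) * (b + δ)) := by
    apply Continuous.mul
    · exact continuous_finsetProd _ (fun P _ => continuous_const.add continuous_id)
    · exact continuous_const.add continuous_id
  have h1 := (Metric.continuous_iff.1 hc) 0 ε hε
  obtain ⟨η, hη, h2⟩ := h1
  refine ⟨η / 2, by positivity, fun δ hδ hδ' => ?_⟩
  have h3 := h2 δ (by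
    rw [Real.dist_eq, sub_zero, abs_of_pos hδ]
    linarith)
  rw [Real.dist_eq] at h3
  have h4 := (abs_lt.1 h3).2
  simp only [add_zero] at h4
  linarith

end Cont

open Classical in
theorem avw_thm (hEQP : EQP3Stmt) (hLVA : LVAStmt) (hLVB : LVBStmt) : AVWStmt := by
  intro F _ _ h2 S hS ε hε
  have hq : (0 : ℝ) < Nat.card F := by exact_mod_cast Nat.card_pos
  obtain ⟨δ1, hδ1, hd1⟩ := exists_delta S (fun P => rhoF F P.natDegree) (rhoF F 1) ε hε
  obtain ⟨δ2, hδ2, hd2⟩ := exists_delta S (fun P => 3 / 4 * rhoF F P.natDegree) (rhoF F 1) ε hε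
  set δ : ℝ := min δ1 δ2 with hδdef
  have hδ : 0 < δ := lt_min hδ1 hδ2
  have e1 := hd1 δ hδ (min_le_left _ _)
  have e2 := hd2 δ hδ (min_le_right _ _)
  have hL : ∀ P ∈ insert X S, ∃ N₀ : ℕ, ∀ N : ℕ, N₀ ≤ N →
      ∑ᶠ c : Fin 10 → AdjoinRoot (P ^ N), wb P N (fun i => AVS.lft (c i)) ≤
        (rhoF F P.natDegree + δ) * (Nat.card F : ℝ) ^ (10 * (N * P.natDegree)) ∧
      ∑ᶠ c ∈ {c : Fin 10 → AdjoinRoot (P ^ N) |
          ¬ Nice (md3 P (Jc (hf F) fun i => AVS.lft (c i)))}, wb P N (fun i => AVS.lft (c i)) ≤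
        (3 / 4 * rhoF F P.natDegree + δ) * (Nat.card F : ℝ) ^ (10 * (N * P.natDegree)) := by
    intro P hP
    rw [Finset.mem_insert] at hP
    rcases hP with rfl | hP
    · exact hLVB F h2 X monic_X irreducible_X δ hδ
    · exact hLVB F h2 P (hS P hP).1 (hS P hP).2 δ hδ
  choose! N₀ hN₀ using hL
  set N : ℕ := max 1 ((insert X S).sup N₀) with hNdef
  have hN : 1 ≤ N := le_max_left _ _
  have hNP := fun P (hP : P ∈ insert X S) =>
    hN₀ P hP N ((Finset.le_sup hP).trans (le_max_right _ _))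
  refine ⟨N, hN, fun n α β hn => ?_⟩
  have hX := (hNP X (Finset.mem_insert_self _ _)).1
  rw [natDegree_X, mul_one] at hX
  have hXA := (hLVA F h2 X monic_X irreducible_X).2 N hN
  have hX1 : (∑ᶠ c : Fin 10 → AdjoinRoot ((X : F[X]) ^ N), wb X N (fun i => AVS.lft (c i))) /
      (Nat.card F : ℝ) ^ (10 * N) ≤ rhoF F 1 + δ := by
    rw [div_le_iff₀ (by positivity)]
    exact hX
  have hX0 : 0 ≤ (∑ᶠ c : Fin 10 → AdjoinRoot ((X : F[X]) ^ N), wb X N (fun i => AVS.lft (c i))) /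
      (Nat.card F : ℝ) ^ (10 * N) := by
    apply div_nonneg _ (by positivity)
    exact finsum_nonneg (fun c => (hXA _).2.2.1)
  have hSA := fun P (hP : P ∈ S) => (hLVA F h2 P (hS P hP).1 (hS P hP).2).2 N hN
  constructor
  · obtain ⟨hfin, h⟩ := gen hEQP (fun P c => wb P N c) (fun c => wb X N c) S N hN hS
      (fun P hP c => (hSA P hP c).1) (fun c => (hXA c).1) n α β hn
    have h3 : ∑ᶠ c ∈ (Vd n (dv α β) : Set (Fin 10 → F[X])), WB3 n α β S N c =
      ∑ᶠ c ∈ (Vd n (dv α β) : Set (Fin 10 → F[X])),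
        (∏ P ∈ S, wb P N c) * wb X N (cinf n (dv α β) c) := rfl
    rw [h3, h]
    have h4 : ∏ P ∈ S, (∑ᶠ c : Fin 10 → AdjoinRoot (P ^ N), wb P N (fun i => AVS.lft (c i))) /
        (Nat.card F : ℝ) ^ (10 * (N * P.natDegree)) ≤ ∏ P ∈ S, (rhoF F P.natDegree + δ) := by
      apply Finset.prod_le_prod
      · intro P hP
        apply div_nonneg _ (by positivity)
        exact finsum_nonneg (fun c => (hSA P hP _).2.2.1)
      · intro P hP
        rw [div_le_iff₀ (by positivity)]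
        exact (hNP P (Finset.mem_insert_of_mem hP)).1
    have h40 : 0 ≤ ∏ P ∈ S, (∑ᶠ c : Fin 10 → AdjoinRoot (P ^ N),
        wb P N (fun i => AVS.lft (c i))) / (Nat.card F : ℝ) ^ (10 * (N * P.natDegree)) := by
      apply Finset.prod_nonneg
      intro P hP
      apply div_nonneg _ (by positivity)
      exact finsum_nonneg (fun c => (hSA P hP _).2.2.1)
    have h5 := mul_le_mul h4 hX1 hX0 (h40.trans h4)
    rw [mul_assoc, mul_comm]
    apply mul_le_mul_of_nonneg_right _ (by positivity)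
    exact h5.trans e1
  · obtain ⟨hfin, h⟩ := gen hEQP
      (fun P c => if Nice (md3 P (Jc (hf F) c)) then 0 else wb P N c)
      (fun c => wb X N c) S N hN hS
      (fun P hP c => by
        have h6 := hSA P hP c
        by_cases h7 : Nice (md3 P (Jc (hf F) c))
        · rw [if_pos h7, if_pos (h6.2.1.2 h7)]
        · rw [if_neg h7, if_neg (fun h8 => h7 (h6.2.1.1 h8)), h6.1])
      (fun c => (hXA c).1) n α β hn
    have h3 : ∑ᶠ c ∈ {c : Fin 10 → F[X] | c ∈ Vd n (dv α β) ∧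
        ∀ P ∈ S, ¬ Nice (md3 P (Jc (hf F) c))}, WB3 n α β S N c =
      ∑ᶠ c ∈ (Vd n (dv α β) : Set (Fin 10 → F[X])),
        (∏ P ∈ S, if Nice (md3 P (Jc (hf F) c)) then 0 else wb P N c) *
          wb X N (cinf n (dv α β) c) := by
      rw [fsum_if hfin]
      refine finsum_mem_congr rfl (fun c _ => ?_)
      by_cases h9 : ∀ P ∈ S, ¬ Nice (md3 P (Jc (hf F) c))
      · rw [if_pos h9]
        unfold WB3
        congr 1
        refine Finset.prod_congr rfl (fun P hP => ?_)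
        rw [if_neg (h9 P hP)]
      · rw [if_neg h9]
        push Not at h9
        obtain ⟨P, hP, h10⟩ := h9
        have h11 : (∏ P ∈ S, if Nice (md3 P (Jc (hf F) c)) then 0 else wb P N c) = 0 :=
          Finset.prod_eq_zero hP (if_pos h10)
        rw [h11, zero_mul]
    rw [h3, h]
    have h4 : ∏ P ∈ S, (∑ᶠ c : Fin 10 → AdjoinRoot (P ^ N),
        if Nice (md3 P (Jc (hf F) fun i => AVS.lft (c i))) then 0
          else wb P N (fun i => AVS.lft (c i))) /
        (Nat.card F : ℝ) ^ (10 * (N * P.natDegree)) ≤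
          ∏ P ∈ S, (3 / 4 * rhoF F P.natDegree + δ) := by
      apply Finset.prod_le_prod
      · intro P hP
        apply div_nonneg _ (by positivity)
        apply finsum_nonneg
        intro c
        split_ifs
        · exact le_rfl
        · exact (hSA P hP _).2.2.1
      · intro P hP
        rw [div_le_iff₀ (by positivity), fsum_not]
        exact (hNP P (Finset.mem_insert_of_mem hP)).2
    have h40 : 0 ≤ ∏ P ∈ S, (∑ᶠ c : Fin 10 → AdjoinRoot (P ^ N),
        if Nice (md3 P (Jc (hf F) fun i => AVS.lft (c i))) then 0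
          else wb P N (fun i => AVS.lft (c i))) /
        (Nat.card F : ℝ) ^ (10 * (N * P.natDegree)) := by
      apply Finset.prod_nonneg
      intro P hP
      apply div_nonneg _ (by positivity)
      apply finsum_nonneg
      intro c
      split_ifs
      · exact le_rfl
      · exact (hSA P hP _).2.2.1
    have h5 := mul_le_mul h4 hX1 hX0 (h40.trans h4)
    rw [mul_assoc, mul_comm]
    apply mul_le_mul_of_nonneg_right _ (by positivity)
    refine h5.trans (e2.trans (le_of_eq ?_))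
    unfold rhoS
    rw [Finset.prod_mul_distrib, Finset.prod_const]
    ring

end Pool.Agent.H28.AV3B
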