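import Pool.Agent.H28.AV3B.AVW
import Pool.Agent.H87.AVR.ST3

/-!
# AV3B, module LMU3: the upper bound for the average
-/

set_option autoImplicit false

namespace Pool.Agent.H28.AV3B

open Polynomial Matrix Pool.AVR Pool.AV3

section Sums

theorem fsum_mono {α : Type} {s t : Set α} (ht : t.Finite) (hst : s ⊆ t) (w : α → ℝ)
    (hw : ∀ x ∈ t, 0 ≤ w x) : ∑ᶠ x ∈ s, w x ≤ ∑ᶠ x ∈ t, w x := by
  rw [finsum_mem_eq_finite_toFinset_sum _ (ht.subset hst),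
    finsum_mem_eq_finite_toFinset_sum _ ht]
  refine Finset.sum_le_sum_of_subset_of_nonneg ?_ ?_
  · intro x hx
    rw [Set.Finite.mem_toFinset] at hx ⊢
    exact hst hx
  · intro x hx _
    exact hw x ((Set.Finite.mem_toFinset _).1 hx)

theorem fsum_le {α : Type} {s : Set α} (hs : s.Finite) (w w' : α → ℝ)
    (hw : ∀ x ∈ s, w x ≤ w' x) : ∑ᶠ x ∈ s, w x ≤ ∑ᶠ x ∈ s, w' x := by
  rw [finsum_mem_eq_finite_toFinset_sum _ hs, finsum_mem_eq_finite_toFinset_sum _ hs]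
  refine Finset.sum_le_sum (fun x hx => hw x ((Set.Finite.mem_toFinset _).1 hx))

theorem fsum_const {α : Type} {s : Set α} (hs : s.Finite) (c : ℝ) :
    ∑ᶠ _x ∈ s, c = s.ncard * c := by
  rw [finsum_mem_eq_finite_toFinset_sum _ hs, Finset.sum_const, nsmul_eq_mul,
    Set.ncard_eq_toFinset_card _ hs]

theorem fsum_mul {α : Type} {s : Set α} (hs : s.Finite) (c : ℝ) (w : α → ℝ) :
    ∑ᶠ x ∈ s, c * w x = c * ∑ᶠ x ∈ s, w x := by
  rw [finsum_mem_eq_finite_toFinset_sum _ hs, finsum_mem_eq_finite_toFinset_sum _ hs,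
    Finset.mul_sum]

theorem swap2 {ι : Type} (n : ℕ) (G : Set ι) (hG : G.Finite) (x : ι → ℕ → ℕ → ℝ)
    (g : ℕ → ℕ → ℝ) :
    ∑ᶠ f ∈ G, ∑ α ∈ Finset.range (n + 1), ∑ β ∈ Finset.range (n + 1), x f α β / g α β =
      ∑ α ∈ Finset.range (n + 1), ∑ β ∈ Finset.range (n + 1), (∑ᶠ f ∈ G, x f α β) / g α β := by
  rw [finsum_mem_eq_finite_toFinset_sum _ hG, Finset.sum_comm]
  refine Finset.sum_congr rfl (fun α _ => ?_)
  rw [Finset.sum_comm]
  refine Finset.sum_congr rfl (fun β _ => ?_)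
  rw [finsum_mem_eq_finite_toFinset_sum _ hG, Finset.sum_div]

end Sums

section Inf

variable {F : Type} [Field F] [Finite F]

omit [Finite F] in
theorem irr_infinite : {P : F[X] | P.Monic ∧ Irreducible P}.Infinite := by
  classical
  intro hfin
  set T := hfin.toFinset with hT
  have hmem : ∀ P : F[X], P ∈ T ↔ P.Monic ∧ Irreducible P := by
    intro P
    rw [hT, Set.Finite.mem_toFinset]
    rfl
  have hX : (X : F[X]) ∈ T := (hmem X).2 ⟨monic_X, irreducible_X⟩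
  have hmon : (∏ P ∈ T, P).Monic := monic_prod_of_monic _ _ (fun P hP => ((hmem P).1 hP).1)
  have hdvd : (X : F[X]) ∣ ∏ P ∈ T, P := Finset.dvd_prod_of_mem _ hX
  have hdeg : 1 ≤ (∏ P ∈ T, P).natDegree := by
    have h := natDegree_le_of_dvd hdvd hmon.ne_zero
    rwa [natDegree_X] at h
  have hdeg' : (∏ P ∈ T, P + 1).natDegree = (∏ P ∈ T, P).natDegree := by
    rw [← C_1, natDegree_add_C]
  have hnu : ¬ IsUnit (∏ P ∈ T, P + 1) := by
    intro hu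
    have h := natDegree_eq_zero_of_isUnit hu
    omega
  have hne : (∏ P ∈ T, P + 1) ≠ 0 := by
    intro h0
    rw [h0, natDegree_zero] at hdeg'
    omega
  obtain ⟨Q, hQ, hQd⟩ := WfDvdMonoid.exists_irreducible_factor hnu hne
  have hQ0 : Q ≠ 0 := hQ.ne_zero
  have hass : Associated Q (normalize Q) := (normalize_associated Q).symm
  have hQn : normalize Q ∈ T := by
    rw [hmem]
    refine ⟨monic_normalize hQ0, hass.irreducible hQ⟩
  have h1 : Q ∣ ∏ P ∈ T, P := hass.dvd.trans (Finset.dvd_prod_of_mem _ hQn)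
  have h2 : Q ∣ 1 := (dvd_add_right h1).1 hQd
  exact hQ.not_isUnit (isUnit_of_dvd_one h2)

omit [Finite F] in
theorem big_card (k : ℕ) : ∃ D : ℕ, ∀ S : Finset F[X],
    (∀ P : F[X], P.Monic → Irreducible P → P.natDegree ≤ D → P ∈ S) → k ≤ S.card := by
  obtain ⟨t, ht, hc⟩ := (irr_infinite (F := F)).exists_subset_card_eq k
  refine ⟨t.sup natDegree, fun S hS => ?_⟩
  rw [← hc]
  apply Finset.card_le_card
  intro P hP
  have h := ht hP
  exact hS P h.1 h.2 (Finset.le_sup (f := natDegree) hP)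

end Inf

section Part

variable {F : Type} [Field F] [Finite F]

theorem WB3_nonneg (hLVA : LVAStmt) (h2 : (2 : F) ≠ 0) (S : Finset F[X])
    (hS : ∀ P ∈ S, P.Monic ∧ Irreducible P) (N : ℕ) (hN : 1 ≤ N) (n α β : ℕ)
    (c : Fin 10 → F[X]) : 0 ≤ WB3 n α β S N c := by
  unfold WB3
  apply mul_nonneg
  · apply Finset.prod_nonneg
    intro P hP
    exact ((hLVA F h2 P (hS P hP).1 (hS P hP).2).2 N hN c).2.2.1
  · exact ((hLVA F h2 X monic_X irreducible_X).2 N hN _).2.2.1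

/-- The bound of the counting inequality. -/
noncomputable def YY (n N : ℕ) (S : Finset F[X]) (f : F[X] × F[X] × F[X]) : ℝ :=
  ∑ α ∈ Finset.range (n + 1), ∑ β ∈ Finset.range (n + 1),
    (∑ᶠ c ∈ VJ n (dv α β) f, WB3 n α β S N c) /
      (G3 (dv α β) : Set (Matrix (Fin 3) (Fin 3) F[X])).ncard

theorem YY_nonneg (hLVA : LVAStmt) (h2 : (2 : F) ≠ 0) (S : Finset F[X])
    (hS : ∀ P ∈ S, P.Monic ∧ Irreducible P) (N : ℕ) (hN : 1 ≤ N) (n : ℕ)
    (f : F[X] × F[X] × F[X]) : 0 ≤ YY n N S f := by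
  unfold YY
  apply Finset.sum_nonneg
  intro α _
  apply Finset.sum_nonneg
  intro β _
  apply div_nonneg _ (Nat.cast_nonneg _)
  apply finsum_nonneg
  intro c
  apply finsum_nonneg
  intro _
  exact WB3_nonneg hLVA h2 S hS N hN n α β c

theorem part (hSUF : SUFStmt) (hLVA : LVAStmt) (hCNV : CNVStmt) (h2 : (2 : F) ≠ 0)
    (S : Finset F[X]) (hS : ∀ P ∈ S, P.Monic ∧ Irreducible P) (N : ℕ) (hN : 1 ≤ N) (n : ℕ)
    (T : Set (F[X] × F[X] × F[X])) (hT : T.Finite) (hTF : T ⊆ Fam F n) (κ δ : ℝ)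
    (hκ : 0 ≤ κ)
    (hmain : ∀ α β : ℕ, N * (∑ P ∈ S, P.natDegree + 1) + 2 * α + β ≤ n + 1 →
      ∑ᶠ c ∈ {c : Fin 10 → F[X] | c ∈ Vd n (dv α β) ∧ ∃ f ∈ T, c ∈ VJ n (dv α β) f},
        WB3 n α β S N c ≤ κ * (Nat.card F : ℝ) ^ (10 * n + 10))
    (htail : ∑ α ∈ Finset.range (n + 1), ∑ β ∈ Finset.range (n + 1),
        (if N * (∑ P ∈ S, P.natDegree + 1) + 2 * α + β ≤ n + 1 then 0 else
        (∑ᶠ c ∈ (Vd n (dv α β) : Set (Fin 10 → F[X])), WB3 n α β S N c) /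
          (G3 (dv α β) : Set (Matrix (Fin 3) (Fin 3) F[X])).ncard) ≤
      δ * (Nat.card F : ℝ) ^ (10 * n + 10)) :
    ∑ᶠ f ∈ T, YY n N S f ≤ (Nat.card F : ℝ) ^ (12 * n + 11) * (κ *
      (∑ α ∈ Finset.range (n + 1), ∑ β ∈ Finset.range (n + 1),
        1 / ((G3 (dv α β) : Set (Matrix (Fin 3) (Fin 3) F[X])).ncard : ℝ)) + δ) := by
  have hq : (0 : ℝ) < Nat.card F := by exact_mod_cast Nat.card_pos
  have h1 : ∑ᶠ f ∈ T, YY n N S f = ∑ α ∈ Finset.range (n + 1), ∑ β ∈ Finset.range (n + 1),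
      (∑ᶠ f ∈ T, ∑ᶠ c ∈ VJ n (dv α β) f, WB3 n α β S N c) /
        ((G3 (dv α β) : Set (Matrix (Fin 3) (Fin 3) F[X])).ncard : ℝ) :=
    swap2 n T hT (fun f α β => ∑ᶠ c ∈ VJ n (dv α β) f, WB3 n α β S N c)
      (fun α β => ((G3 (dv α β) : Set (Matrix (Fin 3) (Fin 3) F[X])).ncard : ℝ))
  rw [h1]
  have hstep : ∀ α ∈ Finset.range (n + 1), ∀ β ∈ Finset.range (n + 1),
      (∑ᶠ f ∈ T, ∑ᶠ c ∈ VJ n (dv α β) f, WB3 n α β S N c) /
        ((G3 (dv α β) : Set (Matrix (Fin 3) (Fin 3) F[X])).ncard : ℝ) ≤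
      (Nat.card F : ℝ) ^ (2 * n + 1) * (κ * (Nat.card F : ℝ) ^ (10 * n + 10) *
        (1 / ((G3 (dv α β) : Set (Matrix (Fin 3) (Fin 3) F[X])).ncard : ℝ)) +
        (if N * (∑ P ∈ S, P.natDegree + 1) + 2 * α + β ≤ n + 1 then 0 else
        (∑ᶠ c ∈ (Vd n (dv α β) : Set (Fin 10 → F[X])), WB3 n α β S N c) /
          (G3 (dv α β) : Set (Matrix (Fin 3) (Fin 3) F[X])).ncard)) := by
    intro α hα β hβ
    have hαn : α ≤ n := by
      have := Finset.mem_range.mp hα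
      omega
    have hβn : β ≤ n := by
      have := Finset.mem_range.mp hβ
      omega
    have hW : ∀ c, 0 ≤ WB3 n α β S N c := WB3_nonneg hLVA h2 S hS N hN n α β
    have h3 := hSUF F h2 n α β hαn hβn T (fun c => WB3 n α β S N c) hTF hW
    have hg : (0 : ℝ) ≤ ((G3 (dv α β) : Set (Matrix (Fin 3) (Fin 3) F[X])).ncard : ℝ) :=
      Nat.cast_nonneg _
    refine (div_le_div_of_nonneg_right h3 hg).trans ?_
    rw [mul_div_assoc]
    apply mul_le_mul_of_nonneg_left _ (by positivity)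
    by_cases hm : N * (∑ P ∈ S, P.natDegree + 1) + 2 * α + β ≤ n + 1
    · rw [if_pos hm, add_zero, mul_one_div]
      exact div_le_div_of_nonneg_right (hmain α β hm) hg
    · rw [if_neg hm]
      have h4 : (∑ᶠ c ∈ {c : Fin 10 → F[X] | c ∈ Vd n (dv α β) ∧ ∃ f ∈ T, c ∈ VJ n (dv α β) f},
          WB3 n α β S N c) ≤ ∑ᶠ c ∈ (Vd n (dv α β) : Set (Fin 10 → F[X])), WB3 n α β S N c :=
        fsum_mono (hCNV F n α β hαn hβn).1 (fun c hc => hc.1) _ (fun c _ => hW c)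
      have h5 := div_le_div_of_nonneg_right h4 hg
      have h6 : 0 ≤ κ * (Nat.card F : ℝ) ^ (10 * n + 10) *
        (1 / ((G3 (dv α β) : Set (Matrix (Fin 3) (Fin 3) F[X])).ncard : ℝ)) := by positivity
      linarith
  refine (Finset.sum_le_sum (fun α hα => Finset.sum_le_sum (fun β hβ => hstep α hα β hβ))).trans ?_
  simp only [← Finset.mul_sum, Finset.sum_add_distrib]
  have e1 : (Nat.card F : ℝ) ^ (12 * n + 11) =
      (Nat.card F : ℝ) ^ (2 * n + 1) * (Nat.card F : ℝ) ^ (10 * n + 10) := by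
    rw [← pow_add]
    congr 1
    ring
  have e9 : (Nat.card F : ℝ) ^ (12 * n + 11) * (κ *
      (∑ α ∈ Finset.range (n + 1), ∑ β ∈ Finset.range (n + 1),
        1 / ((G3 (dv α β) : Set (Matrix (Fin 3) (Fin 3) F[X])).ncard : ℝ)) + δ) =
      (Nat.card F : ℝ) ^ (2 * n + 1) * (κ * (Nat.card F : ℝ) ^ (10 * n + 10) *
      (∑ α ∈ Finset.range (n + 1), ∑ β ∈ Finset.range (n + 1),
        1 / ((G3 (dv α β) : Set (Matrix (Fin 3) (Fin 3) F[X])).ncard : ℝ)) +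
          δ * (Nat.card F : ℝ) ^ (10 * n + 10)) := by
    rw [e1]
    ring
  rw [e9]
  apply mul_le_mul_of_nonneg_left _ (by positivity)
  exact add_le_add le_rfl htail

end Part

section Final

theorem sq1 (ε : ℝ) (h0 : 0 ≤ ε) (h1 : ε ≤ 1) : (1 + ε / 80) * (1 + ε / 80) ≤ 1 + ε / 24 := by
  nlinarith

theorem sq2 (ε : ℝ) (h0 : 0 ≤ ε) (h1 : ε ≤ 1) : ε / 1152 * (3 + ε / 8) ≤ ε / 64 := by
  nlinarith

theorem sq3 (ε : ℝ) (h0 : 0 ≤ ε) (h1 : ε ≤ 1) : 3 + 3 * ε / 8 ≤ (3 + ε) * (1 - ε / 24) := by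
  nlinarith

/-- the final inequality -/
theorem final (q ε T Ec ρ r1 A Z2 Z3 t δ G1 X0 X1 X2 : ℝ) (hq : 3 ≤ q) (hε : 0 < ε) (hε1 : ε ≤ 1)
    (hT : 0 < T) (hr1 : 0 < r1) (hA : A = 3 / ((1 - 1 / q) * (1 - 1 / q ^ 2) * r1))
    (hρ : ρ = Z2 * Z3 * r1) (hZ20 : 0 ≤ Z2) (hZ30 : 0 ≤ Z3)
    (hZ2 : Z2 ≤ 1 - 1 / q + ε / 120) (hZ3 : Z3 ≤ 1 - 1 / q ^ 2 + ε / 120)
    (ht0 : 0 ≤ t) (ht : t ≤ ε / 1152) (hδ0 : 0 ≤ δ) (hδ : δ * (9 * A + 9 * ((q - 1) * q ^ 8)) ≤ ε / 8)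
    (hG1 : (q - 1) * G1 * (q ^ 8 * T) ≤ A * T)
    (hX1 : X1 ≤ q ^ 8 * T * ((ρ + δ) * G1 + δ)) (hX2 : X2 ≤ q ^ 8 * T * ((t * ρ + δ) * G1 + δ))
    (hX0 : X0 ≤ Ec + (q - 1) * X1 + 8 * ((q - 1) * X2))
    (hE : T * (1 - ε / 24) ≤ Ec) : X0 ≤ (4 + ε) * Ec := by
  have hq0 : 0 < q := by linarith
  have hq1 : 0 < q - 1 := by linarith
  have hqi : 1 / q ≤ 1 / 3 := one_div_le_one_div_of_le (by norm_num) hq
  have hqi0 : 0 < 1 / q := by positivity
  have hqi2 : 1 / q ^ 2 ≤ 1 / 9 := by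
    apply one_div_le_one_div_of_le (by norm_num)
    nlinarith
  have ha : 0 < 1 - 1 / q := by linarith
  have hb : 0 < 1 - 1 / q ^ 2 := by linarith
  have hA0 : 0 ≤ A := by
    rw [hA]
    positivity
  have hρ0 : 0 ≤ ρ := by
    rw [hρ]
    positivity
  have hAρ : A * ρ ≤ 3 + ε / 8 := by
    rw [hA, hρ]
    have h1 : 3 / ((1 - 1 / q) * (1 - 1 / q ^ 2) * r1) * (Z2 * Z3 * r1) =
        3 * ((Z2 / (1 - 1 / q)) * (Z3 / (1 - 1 / q ^ 2))) := by
      field_simp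
    rw [h1]
    have h2 : Z2 / (1 - 1 / q) ≤ 1 + ε / 80 := by
      rw [div_le_iff₀ ha]
      have h := mul_le_mul_of_nonneg_left (show 2 / 3 ≤ 1 - 1 / q by linarith)
        (show 0 ≤ ε / 80 by positivity)
      linarith
    have h3 : Z3 / (1 - 1 / q ^ 2) ≤ 1 + ε / 80 := by
      rw [div_le_iff₀ hb]
      have h := mul_le_mul_of_nonneg_left (show 2 / 3 ≤ 1 - 1 / q ^ 2 by linarith)
        (show 0 ≤ ε / 80 by positivity)
      linarith
    have h4 : 0 ≤ Z2 / (1 - 1 / q) := by positivity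
    have h5 : 0 ≤ Z3 / (1 - 1 / q ^ 2) := by positivity
    have h6 : (Z2 / (1 - 1 / q)) * (Z3 / (1 - 1 / q ^ 2)) ≤ (1 + ε / 80) * (1 + ε / 80) :=
      mul_le_mul h2 h3 h5 (by positivity)
    have h7 := sq1 ε hε.le hε1
    linarith
  have hX1' : (q - 1) * X1 ≤ T * ((ρ + δ) * A + δ * ((q - 1) * q ^ 8)) := by
    calc (q - 1) * X1 ≤ (q - 1) * (q ^ 8 * T * ((ρ + δ) * G1 + δ)) :=
          mul_le_mul_of_nonneg_left hX1 hq1.le
      _ = (ρ + δ) * ((q - 1) * G1 * (q ^ 8 * T)) + T * (δ * ((q - 1) * q ^ 8)) := by ring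
      _ ≤ (ρ + δ) * (A * T) + T * (δ * ((q - 1) * q ^ 8)) := by
          have := mul_le_mul_of_nonneg_left hG1 (show 0 ≤ ρ + δ by linarith)
          linarith
      _ = _ := by ring
  have hX2' : (q - 1) * X2 ≤ T * ((t * ρ + δ) * A + δ * ((q - 1) * q ^ 8)) := by
    calc (q - 1) * X2 ≤ (q - 1) * (q ^ 8 * T * ((t * ρ + δ) * G1 + δ)) :=
          mul_le_mul_of_nonneg_left hX2 hq1.le
      _ = (t * ρ + δ) * ((q - 1) * G1 * (q ^ 8 * T)) + T * (δ * ((q - 1) * q ^ 8)) := by ring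
      _ ≤ (t * ρ + δ) * (A * T) + T * (δ * ((q - 1) * q ^ 8)) := by
          have := mul_le_mul_of_nonneg_left hG1 (show 0 ≤ t * ρ + δ by positivity)
          linarith
      _ = _ := by ring
  have htρ : t * (A * ρ) ≤ ε / 1152 * (3 + ε / 8) :=
    mul_le_mul ht hAρ (mul_nonneg hA0 hρ0) (by positivity)
  have hsum : (q - 1) * X1 + 8 * ((q - 1) * X2) ≤ T * (3 + 3 * ε / 8) := by
    have h7 : (q - 1) * X1 + 8 * ((q - 1) * X2) ≤
        T * (A * ρ + 8 * (t * (A * ρ)) + δ * (9 * A + 9 * ((q - 1) * q ^ 8))) := by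
      have e : T * (A * ρ + 8 * (t * (A * ρ)) + δ * (9 * A + 9 * ((q - 1) * q ^ 8))) =
        T * ((ρ + δ) * A + δ * ((q - 1) * q ^ 8)) +
          8 * (T * ((t * ρ + δ) * A + δ * ((q - 1) * q ^ 8))) := by ring
      rw [e]
      linarith
    refine h7.trans (mul_le_mul_of_nonneg_left ?_ hT.le)
    have h10 := sq2 ε hε.le hε1
    linarith
  have h8 : (3 + ε) * (T * (1 - ε / 24)) ≤ (3 + ε) * Ec :=
    mul_le_mul_of_nonneg_left hE (by positivity)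
  have h9 : T * (3 + 3 * ε / 8) ≤ (3 + ε) * (T * (1 - ε / 24)) := by
    have e1 : (3 + ε) * (T * (1 - ε / 24)) = T * ((3 + ε) * (1 - ε / 24)) := by ring
    rw [e1]
    exact mul_le_mul_of_nonneg_left (sq3 ε hε.le hε1) hT.le
  linarith

theorem largeT (q ε : ℝ) (hq : 3 ≤ q) (hε : 0 < ε) :
    ∃ M : ℕ, ∀ n : ℕ, M ≤ n → 3 * q ^ (10 * n + 3) ≤ ε * q ^ (12 * n + 3) := by
  have hq0 : 0 < q := by linarith
  have hqi : 1 / q < 1 := by
    rw [div_lt_one hq0]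
    linarith
  obtain ⟨M, hM⟩ := exists_pow_lt_of_lt_one (show 0 < ε / 3 by positivity) hqi
  refine ⟨M, fun n hn => ?_⟩
  have h1 : (1 / q) ^ (2 * n) ≤ (1 / q) ^ M :=
    pow_le_pow_of_le_one (by positivity) hqi.le (by omega)
  have h2 : (1 / q) ^ (2 * n) < ε / 3 := lt_of_le_of_lt h1 hM
  rw [one_div, inv_pow, inv_lt_iff_one_lt_mul₀ (by positivity)] at h2
  have e : q ^ (12 * n + 3) = q ^ (2 * n) * q ^ (10 * n + 3) := by
    rw [← pow_add]
    congr 1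
    ring
  rw [e]
  have h3 : 0 < q ^ (10 * n + 3) := by positivity
  have h4 : 3 ≤ ε * q ^ (2 * n) := by
    have : 1 < q ^ (2 * n) * (ε / 3) := by
      first
        | exact h2
        | (rw [mul_comm]; exact h2)
    linarith
  calc 3 * q ^ (10 * n + 3) ≤ (ε * q ^ (2 * n)) * q ^ (10 * n + 3) :=
        mul_le_mul_of_nonneg_right h4 h3.le
    _ = _ := by ring

end Final

open Classical in
theorem lmu3_thm (hWUG : WUG3Stmt) (hST9 : ST9Stmt) (hST1 : Pool.AV3.ST1Stmt) (hSUF : SUFStmt)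
    (hAVW : AVWStmt) (hTLW : TLWStmt) (hMTS : MTSStmt) (hELN : ELNStmt) (hNSI : NSIStmt)
    (hZET : ZETStmt) (hZE3 : ZE3Stmt) (hCNV : CNVStmt) (hLVA : LVAStmt) : LMU3Stmt := by
  intro F _ _ h2 ε0 hε0
  set ε : ℝ := min ε0 1 with hεdef
  have hε : 0 < ε := lt_min hε0 one_pos
  have hε1 : ε ≤ 1 := min_le_right _ _
  have hεε : ε ≤ ε0 := min_le_left _ _
  have hq3 := ST2.three_le h2
  set q : ℝ := (Nat.card F : ℝ) with hqdef
  have hq : 3 ≤ q := by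
    rw [hqdef]
    exact_mod_cast hq3
  have hq0 : 0 < q := by linarith
  have hq1 : 0 < q - 1 := by linarith
  have hqi : 1 / q ≤ 1 / 3 := one_div_le_one_div_of_le (by norm_num) hq
  -- the finite set of primes
  obtain ⟨D1, hD1⟩ := hZET F (ε / 120) (by positivity)
  obtain ⟨D2, hD2⟩ := hZE3 F (ε / 120) (by positivity)
  obtain ⟨k, hk⟩ := exists_pow_lt_of_lt_one (show 0 < ε / 1152 by positivity)
    (show (3 / 4 : ℝ) < 1 by norm_num)
  obtain ⟨D3, hD3⟩ := big_card (F := F) k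
  obtain ⟨S, hS1, hS2⟩ := ST3.primes_fin F (max (max D1 D2) D3)
  have hZ2 := hD1 S hS1 (fun P hP hPi hd => hS2 P hP hPi
    (hd.trans ((le_max_left _ _).trans (le_max_left _ _))))
  have hZ3 := hD2 S hS1 (fun P hP hPi hd => hS2 P hP hPi
    (hd.trans ((le_max_right _ _).trans (le_max_left _ _))))
  have hkS := hD3 S (fun P hP hPi hd => hS2 P hP hPi (hd.trans (le_max_right _ _)))
  have ht : (3 / 4 : ℝ) ^ S.card ≤ ε / 1152 :=
    (pow_le_pow_of_le_one (by norm_num) (by norm_num) hkS).trans hk.le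
  have hf0 : ∀ k : ℕ, 0 ≤ 1 - 1 / q ^ k := by
    intro k
    have h5 : 1 / q ^ k ≤ 1 := by
      rw [div_le_one (by positivity)]
      exact one_le_pow₀ (by linarith)
    linarith
  have hfp : ∀ k : ℕ, 1 ≤ k → 0 < 1 - 1 / q ^ k := by
    intro k hk
    have h5 : 1 / q ^ k < 1 := by
      rw [div_lt_one (by positivity)]
      exact one_lt_pow₀ (by linarith) (by omega)
    linarith
  set r1 : ℝ := rhoF F 1 with hr1
  have hr10 : 0 < r1 := by
    rw [hr1]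
    unfold rhoF
    exact mul_pos (hfp _ (by norm_num)) (hfp _ (by norm_num))
  set A : ℝ := 3 / ((1 - 1 / q) * (1 - 1 / q ^ 2) * r1) with hA
  have ha0 : 0 < 1 - 1 / q := by linarith
  have hA0 : 0 < A := by
    have := hfp 2 (by norm_num)
    rw [hA]
    positivity
  set δ : ℝ := ε / 8 / (9 * A + 9 * ((q - 1) * q ^ 8)) with hδdef
  have hden : 0 < 9 * A + 9 * ((q - 1) * q ^ 8) := by positivity
  have hδ : 0 < δ := by positivity
  have hδe : δ * (9 * A + 9 * ((q - 1) * q ^ 8)) ≤ ε / 8 := by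
    rw [hδdef, div_mul_cancel₀ _ hden.ne']
  obtain ⟨N, hN, hA1⟩ := hAVW F h2 S hS1 δ hδ
  obtain ⟨n₀, hT1⟩ := hTLW F h2 S hS1 N hN δ hδ
  obtain ⟨M, hM⟩ := largeT q (ε / 24) hq (by positivity)
  refine ⟨max (max n₀ M) 1, fun n hn => ?_⟩
  have hn0 : n₀ ≤ n := (le_max_left _ _).trans ((le_max_left _ _).trans hn)
  have hnM : M ≤ n := (le_max_right _ _).trans ((le_max_left _ _).trans hn)
  have hn1 : 1 ≤ n := (le_max_right _ _).trans hn
  obtain ⟨hEllfin, _, hElc, hElc2, _⟩ := hELN F h2 n hn1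
  have hElfin : (El F n).Finite := hEllfin.subset (fun f hf => hf.1)
  have hElF : El F n ⊆ Fam F n := fun f hf => hf.1.1
  -- finiteness
  have hSfin : ∀ f ∈ El F n, Finite (Sel3 f) := by
    intro f hf
    exact (hWUG F h2 n N 9 S f hf hN hS1 (hST9 F h2 n f hf)).1
  refine ⟨hSfin, ?_⟩
  -- the bad set
  set B : Set (F[X] × F[X] × F[X]) := {f | f ∈ El F n ∧ ∀ P ∈ S, ¬ Nice (md3 P f)} with hB
  have hBfin : B.Finite := hElfin.subset (fun f hf => hf.1)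
  have hYY0 : ∀ f, 0 ≤ YY n N S f := YY_nonneg hLVA h2 S hS1 N hN n
  have hone : ∀ f ∈ El F n, (Nat.card (Sel3 f) : ℝ) ≤ 1 + (q - 1) * YY n N S f +
      8 * ((q - 1) * (if ∀ P ∈ S, ¬ Nice (md3 P f) then YY n N S f else 0)) := by
    intro f hf
    by_cases h : ∀ P ∈ S, ¬ Nice (md3 P f)
    · rw [if_pos h]
      have h3 := (hWUG F h2 n N 9 S f hf hN hS1 (hST9 F h2 n f hf)).2
      have h4 : (Nat.card (Sel3 f) : ℝ) - 1 ≤ (9 : ℕ) * (q - 1) * YY n N S f := h3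
      push_cast at h4
      linarith
    · rw [if_neg h]
      push Not at h
      obtain ⟨P, hP, hPn⟩ := h
      have h3 := (hWUG F h2 n N 1 S f hf hN hS1
        (hST1 F h2 n f hf P (hS1 P hP).1 (hS1 P hP).2 hPn)).2
      have h4 : (Nat.card (Sel3 f) : ℝ) - 1 ≤ (1 : ℕ) * (q - 1) * YY n N S f := h3
      push_cast at h4
      linarith
  have hX0 : ∑ᶠ f ∈ El F n, (Nat.card (Sel3 f) : ℝ) ≤
      (El F n).ncard + (q - 1) * (∑ᶠ f ∈ El F n, YY n N S f) +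
        8 * ((q - 1) * (∑ᶠ f ∈ B, YY n N S f)) := by
    refine (fsum_le hElfin _ _ hone).trans (le_of_eq ?_)
    rw [finsum_mem_add_distrib hElfin, finsum_mem_add_distrib hElfin, fsum_const hElfin, mul_one,
      fsum_mul hElfin, fsum_mul hElfin, fsum_mul hElfin, hB, fsum_if hElfin]
  -- the two parts
  have hρ0 : 0 ≤ rhoS S := by
    unfold rhoS
    apply mul_nonneg _ hr10.le
    apply Finset.prod_nonneg
    intro P _
    unfold rhoF
    exact mul_nonneg (hf0 _) (hf0 _)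
  have hWn : ∀ α β (c : Fin 10 → F[X]), 0 ≤ WB3 n α β S N c := fun α β c =>
    WB3_nonneg hLVA h2 S hS1 N hN n α β c
  have hVfin : ∀ α β : ℕ, N * (∑ P ∈ S, P.natDegree + 1) + 2 * α + β ≤ n + 1 →
      (Vd n (dv α β) : Set (Fin 10 → F[X])).Finite := by
    intro α β h
    have h5 : 1 ≤ N * (∑ P ∈ S, P.natDegree + 1) := Nat.mul_pos hN (Nat.succ_pos _)
    exact (hCNV F n α β (by omega) (by omega)).1
  have hX1 := part hSUF hLVA hCNV h2 S hS1 N hN n (El F n) hElfin hElF (rhoS S + δ) δ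
    (by positivity)
    (by
      intro α β h
      refine le_trans ?_ (hA1 n α β h).1
      exact fsum_mono (hVfin α β h) (fun c hc => hc.1) _ (fun c _ => hWn α β c))
    (hT1 n hn0)
  have hX2 := part hSUF hLVA hCNV h2 S hS1 N hN n B hBfin (fun f hf => hElF hf.1)
    ((3 / 4) ^ S.card * rhoS S + δ) δ (by positivity)
    (by
      intro α β h
      refine le_trans ?_ (hA1 n α β h).2
      refine fsum_mono ((hVfin α β h).subset (fun c hc => hc.1)) ?_ _ (fun c _ => hWn α β c)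
      rintro c ⟨hc, f, hf, hcf⟩
      refine ⟨hc, fun P hP hNi => ?_⟩
      obtain ⟨_, p, hp⟩ := hcf
      rw [hp] at hNi
      have h6 : md3 P (sh p f) = sh (AdjoinRoot.mk P p) (md3 P f) := by
        unfold md3 sh
        simp only [map_add, map_mul, map_pow, map_ofNat]
      rw [h6, hNSI] at hNi
      exact hf.2 P hP hNi)
    (hT1 n hn0)
  have e8 : (Nat.card F : ℝ) ^ (12 * n + 11) = q ^ 8 * q ^ (12 * n + 3) := by
    rw [← hqdef, ← pow_add]
    congr 1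
    ring
  rw [e8] at hX1 hX2
  have hG := hMTS F h2 n
  rw [e8] at hG
  have hT0 : 0 < q ^ (12 * n + 3) := by positivity
  have hE : q ^ (12 * n + 3) * (1 - ε / 24) ≤ ((El F n).ncard : ℝ) := by
    have h7 : q ^ (12 * n + 3) ≤ (El F n).ncard + 3 * q ^ (10 * n + 3) := by
      rw [hqdef]
      exact_mod_cast hElc2
    have h8 := hM n hnM
    linarith
  have hρe : rhoS S = (∏ P ∈ S, (1 - 1 / q ^ (2 * P.natDegree))) *
      (∏ P ∈ S, (1 - 1 / q ^ (3 * P.natDegree))) * r1 := by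
    unfold rhoS
    rw [← Finset.prod_mul_distrib]
    rfl
  have hfinal := final q ε (q ^ (12 * n + 3)) ((El F n).ncard : ℝ) (rhoS S) r1 A
    (∏ P ∈ S, (1 - 1 / q ^ (2 * P.natDegree))) (∏ P ∈ S, (1 - 1 / q ^ (3 * P.natDegree)))
    ((3 / 4) ^ S.card) δ
    (∑ α ∈ Finset.range (n + 1), ∑ β ∈ Finset.range (n + 1),
        1 / ((G3 (dv α β) : Set (Matrix (Fin 3) (Fin 3) F[X])).ncard : ℝ)) _ _ _
    hq hε hε1 hT0 hr10 hA hρe (Finset.prod_nonneg (fun P _ => hf0 _))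
    (Finset.prod_nonneg (fun P _ => hf0 _)) hZ2 hZ3 (by positivity) ht hδ.le hδe hG hX1 hX2 hX0 hE
  refine hfinal.trans ?_
  exact mul_le_mul_of_nonneg_right (by linarith) (Nat.cast_nonneg _)

end Pool.Agent.H28.AV3B
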